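import Mathlib

/-!
Definitions for the intersection body operator and the Banach-Mazur distance.
-/

namespace Pool.Agent.MP_4e5529_gt

open scoped Pointwise

/-- The (n-1)-dimensional volume of the central section of K orthogonal to u.  The measure is
Mathlib's Euclidean Hausdorff measure, normalised to agree with Lebesgue measure on
(n-1)-dimensional Euclidean subspaces. -/
noncomputable def sectionVol {n : ℕ} (K : Set (EuclideanSpace ℝ (Fin n)))
    (u : EuclideanSpace ℝ (Fin n)) : ℝ :=
  (MeasureTheory.Measure.euclideanHausdorffMeasure (n - 1)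
    (K ∩ {x | inner ℝ x u = 0})).toReal

/-- The intersection body of K: the star body whose radial function in the unit direction u is
the volume of the section of K by the hyperplane orthogonal to u. -/
def intersectionBody {n : ℕ} (K : Set (EuclideanSpace ℝ (Fin n))) :
    Set (EuclideanSpace ℝ (Fin n)) :=
  {0} ∪ {x | x ≠ 0 ∧ ‖x‖ ≤ sectionVol K (‖x‖⁻¹ • x)}

/-- The Banach-Mazur distance between L and M. -/
noncomputable def bmDist {n : ℕ} (L M : Set (EuclideanSpace ℝ (Fin n))) : ℝ :=
  sInf {l : ℝ | 1 ≤ l ∧
    ∃ T : EuclideanSpace ℝ (Fin n) ≃ₗ[ℝ] EuclideanSpace ℝ (Fin n), M ⊆ T '' L ∧ T '' L ⊆ l • M}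

end Pool.Agent.MP_4e5529_gt
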