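import Pool.Agent.MP_4e5529_gt.Defs

namespace Pool.Agent.MP_4e5529_gt

open scoped Pointwise
open MeasureTheory Metric

abbrev E3 := EuclideanSpace ℝ (Fin 3)
abbrev E2 := EuclideanSpace ℝ (Fin 2)

/-- The body: two solid cylinders intersected with a ball of radius 51/50. -/
def body : Set E3 :=
  {x | x 1 ^ 2 + x 2 ^ 2 ≤ 1} ∩ {x | x 0 ^ 2 + x 2 ^ 2 ≤ 1} ∩ closedBall 0 (51 / 50)

lemma norm_sq3 (x : E3) : ‖x‖ ^ 2 = x 0 ^ 2 + x 1 ^ 2 + x 2 ^ 2 := by
  rw [EuclideanSpace.norm_sq_eq, Fin.sum_univ_three]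
  simp [sq_abs]

lemma norm_sq2 (x : E2) : ‖x‖ ^ 2 = x 0 ^ 2 + x 1 ^ 2 := by
  rw [EuclideanSpace.norm_sq_eq, Fin.sum_univ_two]
  simp [sq_abs]

lemma ball_subset_body : closedBall (0 : E3) 1 ⊆ body := by
  intro x hx
  rw [mem_closedBall, dist_zero_right] at hx
  have h := norm_sq3 x
  have h1 : ‖x‖ ^ 2 ≤ 1 := by nlinarith [norm_nonneg x]
  refine ⟨⟨?_, ?_⟩, ?_⟩
  · show x 1 ^ 2 + x 2 ^ 2 ≤ 1
    nlinarith [sq_nonneg (x 0)]
  · show x 0 ^ 2 + x 2 ^ 2 ≤ 1
    nlinarith [sq_nonneg (x 1)]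
  · rw [mem_closedBall, dist_zero_right]; linarith

lemma body_subset_ball : body ⊆ closedBall (0 : E3) (51 / 50) := fun _ hx => hx.2

lemma convex_cyl (i j : Fin 3) : Convex ℝ {x : E3 | x i ^ 2 + x j ^ 2 ≤ 1} := by
  intro x hx y hy a b ha hb hab
  simp only [Set.mem_ofPred_eq, PiLp.add_apply, PiLp.smul_apply, smul_eq_mul] at hx hy ⊢
  have hb' : b = 1 - a := by linarith
  subst hb'
  nlinarith [mul_nonneg ha hb, sq_nonneg (x i - y i), sq_nonneg (x j - y j),
    mul_nonneg (mul_nonneg ha hb) (sq_nonneg (x i - y i)),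
    mul_nonneg (mul_nonneg ha hb) (sq_nonneg (x j - y j))]

lemma convex_body : Convex ℝ body :=
  ((convex_cyl 1 2).inter (convex_cyl 0 2)).inter (convex_closedBall _ _)

lemma isClosed_cyl (i j : Fin 3) : IsClosed {x : E3 | x i ^ 2 + x j ^ 2 ≤ 1} := by
  apply isClosed_le _ continuous_const
  fun_prop

lemma isCompact_body : IsCompact body :=
  (isCompact_closedBall _ _).inter_left ((isClosed_cyl 1 2).inter (isClosed_cyl 0 2))

lemma interior_body : (interior body).Nonempty := by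
  refine ⟨0, ?_⟩
  have : closedBall (0 : E3) 1 ∈ nhds (0 : E3) := closedBall_mem_nhds _ one_pos
  exact mem_interior_iff_mem_nhds.2 (Filter.mem_of_superset this ball_subset_body)

lemma body_symm : body = -body := by
  ext x
  simp [body]

lemma section_ball (u : E3) (hu : ‖u‖ = 1) (r : ℝ) :
    (Measure.euclideanHausdorffMeasure 2 : Measure E3)
      (closedBall (0 : E3) r ∩ {x | inner ℝ x u = 0}) = ENNReal.ofReal r ^ 2 * ENNReal.ofReal Real.pi := by
  have hu0 : u ≠ 0 := by rintro rfl; simp at hu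
  let V : Submodule ℝ E3 := (ℝ ∙ u)ᗮ
  have hV : Module.finrank ℝ V = 2 := by
    have : Fact (Module.finrank ℝ E3 = 2 + 1) := ⟨by simp⟩
    exact Submodule.finrank_orthogonal_span_singleton hu0
  have hiso : Isometry (Subtype.val : V → E3) := isometry_subtype_coe
  have h1 := hiso.euclideanHausdorffMeasure_preimage (d := 2) (closedBall (0 : E3) r)
  have hr : Set.range (Subtype.val : V → E3) = {x | inner ℝ x u = 0} := by
    ext x
    simp only [Subtype.range_coe_subtype, Set.mem_ofPred_eq, V]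
    rw [Submodule.mem_orthogonal_singleton_iff_inner_left]
  rw [hr] at h1
  rw [← h1]
  have h2 : (Subtype.val : V → E3) ⁻¹' closedBall (0 : E3) r = closedBall (0 : V) r := by
    ext x
    simp
  rw [h2]
  have h3 : (Measure.euclideanHausdorffMeasure 2 : Measure V) = volume := by
    rw [← hV]; exact InnerProductSpace.euclideanHausdorffMeasure_eq_volume
  rw [h3]
  have : Nontrivial V := Module.nontrivial_of_finrank_pos (R := ℝ) (by omega)
  rw [InnerProductSpace.volume_closedBall_of_dim_even (k := 1) (by simpa using hV), hV]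
  simp

lemma section_le_of_subset (u : E3) (hu : ‖u‖ = 1) (r : ℝ) (hr : 0 ≤ r)
    (h : body ∩ {x | inner ℝ x u = 0} ⊆ closedBall (0 : E3) r) :
    sectionVol body u ≤ r ^ 2 * Real.pi := by
  unfold sectionVol
  have h1 : (Measure.euclideanHausdorffMeasure (3 - 1) : Measure E3)
      (body ∩ {x | inner ℝ x u = 0}) ≤ ENNReal.ofReal r ^ 2 * ENNReal.ofReal Real.pi := by
    rw [← section_ball u hu r]
    exact measure_mono (fun x hx => ⟨h hx, hx.2⟩)
  have h2 := ENNReal.toReal_mono (by finiteness) h1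
  rw [ENNReal.toReal_mul, ENNReal.toReal_pow, ENNReal.toReal_ofReal hr,
    ENNReal.toReal_ofReal Real.pi_pos.le] at h2
  exact h2

lemma section_finite (u : E3) (hu : ‖u‖ = 1) :
    (Measure.euclideanHausdorffMeasure 2 : Measure E3)
      (body ∩ {x | inner ℝ x u = 0}) ≠ ⊤ := by
  have h1 : (Measure.euclideanHausdorffMeasure 2 : Measure E3)
      (body ∩ {x | inner ℝ x u = 0}) ≤ ENNReal.ofReal (51 / 50) ^ 2 * ENNReal.ofReal Real.pi := by
    rw [← section_ball u hu (51 / 50)]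
    exact measure_mono (fun x hx => ⟨body_subset_ball hx.1, hx.2⟩)
  exact ne_top_of_le_ne_top (by finiteness) h1

lemma section_le (u : E3) (hu : ‖u‖ = 1) : sectionVol body u ≤ (51 / 50) ^ 2 * Real.pi :=
  section_le_of_subset u hu _ (by norm_num) (fun _ hx => body_subset_ball hx.1)

lemma section_ge (u : E3) (hu : ‖u‖ = 1) : Real.pi ≤ sectionVol body u := by
  unfold sectionVol
  have h1 : ENNReal.ofReal 1 ^ 2 * ENNReal.ofReal Real.pi ≤
      (Measure.euclideanHausdorffMeasure (3 - 1) : Measure E3)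
      (body ∩ {x | inner ℝ x u = 0}) := by
    rw [← section_ball u hu 1]
    exact measure_mono (fun x hx => ⟨ball_subset_body hx.1, hx.2⟩)
  have h2 := ENNReal.toReal_mono (section_finite u hu) h1
  rw [ENNReal.toReal_mul, ENNReal.toReal_pow, ENNReal.toReal_ofReal zero_le_one,
    ENNReal.toReal_ofReal Real.pi_pos.le] at h2
  simpa using h2

/-- The planar region. -/
def region : Set E2 := {p | p 0 ^ 2 / 2 + p 1 ^ 2 ≤ 1} ∩ closedBall 0 (51 / 50)

lemma volume_rect (a b c d : ℝ) :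
    volume {p : E2 | (a ≤ p 0 ∧ p 0 ≤ b) ∧ (c ≤ p 1 ∧ p 1 ≤ d)} =
      ENNReal.ofReal (b - a) * ENNReal.ofReal (d - c) := by
  have h : {p : E2 | (a ≤ p 0 ∧ p 0 ≤ b) ∧ (c ≤ p 1 ∧ p 1 ≤ d)} =
      (WithLp.ofLp : E2 → (Fin 2 → ℝ)) ⁻¹' Set.Icc ![a, c] ![b, d] := by
    ext p
    simp only [Set.mem_ofPred_eq, Set.mem_preimage, Set.mem_Icc, Pi.le_def, Fin.forall_fin_two,
      Matrix.cons_val_zero, Matrix.cons_val_one]
    tauto
  rw [h, (PiLp.volume_preserving_ofLp (Fin 2)).measure_preimage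
    measurableSet_Icc.nullMeasurableSet, Real.volume_Icc_pi]
  simp [Fin.prod_univ_two]

lemma volume_region : (51 / 50) ^ 2 * Real.pi - 4674 / 100000 ≤ (volume region).toReal := by
  have hsub : closedBall (0 : E2) (51 / 50) ⊆ region ∪
      {p : E2 | (-(285 / 1000) ≤ p 0 ∧ p 0 ≤ 285 / 1000) ∧ (979 / 1000 ≤ p 1 ∧ p 1 ≤ 51 / 50)} ∪
      {p : E2 | (-(285 / 1000) ≤ p 0 ∧ p 0 ≤ 285 / 1000) ∧
        (-(51 / 50) ≤ p 1 ∧ p 1 ≤ -(979 / 1000))} := by
    intro p hp
    have hp' := hp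
    rw [mem_closedBall, dist_zero_right] at hp'
    have hn := norm_sq2 p
    have h1 : p 0 ^ 2 + p 1 ^ 2 ≤ (51 / 50) ^ 2 := by
      rw [← hn]; exact pow_le_pow_left₀ (norm_nonneg _) hp' 2
    by_cases hreg : p 0 ^ 2 / 2 + p 1 ^ 2 ≤ 1
    · exact Or.inl (Or.inl ⟨hreg, hp⟩)
    · push Not at hreg
      have h0 : -(285 / 1000) ≤ p 0 ∧ p 0 ≤ 285 / 1000 := by
        apply abs_le.1
        apply abs_le_of_sq_le_sq' _ (by norm_num) |> abs_le.2
        nlinarith
      have h2 : -(51 / 50) ≤ p 1 ∧ p 1 ≤ 51 / 50 := by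
        apply abs_le_of_sq_le_sq' _ (by norm_num)
        nlinarith [sq_nonneg (p 0)]
      have h3 : (979 / 1000 : ℝ) ^ 2 ≤ p 1 ^ 2 := by nlinarith
      by_cases hs : 0 ≤ p 1
      · exact Or.inl (Or.inr ⟨h0, by nlinarith, h2.2⟩)
      · push Not at hs
        exact Or.inr ⟨h0, h2.1, by nlinarith⟩
  have hle := (measure_mono (μ := volume) hsub).trans
    ((measure_union_le _ _).trans (add_le_add_left (measure_union_le _ _) _))
  rw [volume_rect, volume_rect, EuclideanSpace.volume_closedBall_fin_two] at hle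
  have hfin : volume region ≠ ⊤ :=
    ne_top_of_le_ne_top (measure_closedBall_lt_top (μ := volume) (x := (0 : E2))
      (r := 51 / 50)).ne (measure_mono Set.inter_subset_right)
  have h2 := ENNReal.toReal_mono (by finiteness) hle
  rw [ENNReal.toReal_add (by finiteness) (by finiteness),
    ENNReal.toReal_add (by finiteness) (by finiteness)] at h2
  simp only [ENNReal.toReal_mul, ENNReal.toReal_pow] at h2
  rw [ENNReal.toReal_ofReal (by norm_num), ENNReal.toReal_ofReal Real.pi_pos.le,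
    ENNReal.toReal_ofReal (by norm_num), ENNReal.toReal_ofReal (by norm_num),
    ENNReal.toReal_ofReal (by norm_num)] at h2
  linarith

/-- Parametrisation of the plane orthogonal to (c, s c, 0), where s is a sign and 2 c ^ 2 = 1. -/
noncomputable def planeMap (c s : ℝ) (p : E2) : E3 := WithLp.toLp 2 ![c * p 0, -(s * c) * p 0, p 1]

lemma isometry_planeMap (c s : ℝ) (hc : 2 * c ^ 2 = 1) (hs : s ^ 2 = 1) :
    Isometry (planeMap c s) := by
  apply Isometry.of_dist_eq
  intro p q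
  rw [dist_eq_norm, dist_eq_norm]
  apply (pow_left_inj₀ (norm_nonneg _) (norm_nonneg _) two_ne_zero).1
  rw [norm_sq3, norm_sq2]
  simp only [planeMap, PiLp.sub_apply, Matrix.cons_val_zero, Matrix.cons_val_one,
    Matrix.cons_val]
  linear_combination (p 0 - q 0) ^ 2 * hc + c ^ 2 * (p 0 - q 0) ^ 2 * hs

noncomputable def diagDir (c s : ℝ) : E3 := WithLp.toLp 2 ![c, s * c, 0]

lemma norm_diagDir (c s : ℝ) (hc : 2 * c ^ 2 = 1) (hs : s ^ 2 = 1) : ‖diagDir c s‖ = 1 := by
  apply (pow_left_inj₀ (norm_nonneg _) zero_le_one two_ne_zero).1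
  rw [norm_sq3]
  simp only [diagDir, Matrix.cons_val_zero, Matrix.cons_val_one, Matrix.cons_val]
  linear_combination hc + c ^ 2 * hs

lemma section_diag (c s : ℝ) (hc : 2 * c ^ 2 = 1) (hs : s ^ 2 = 1) :
    (51 / 50) ^ 2 * Real.pi - 4674 / 100000 ≤ sectionVol body (diagDir c s) := by
  refine volume_region.trans ?_
  unfold sectionVol
  apply ENNReal.toReal_mono (section_finite _ (norm_diagDir c s hc hs))
  rw [← EuclideanSpace.euclideanHausdorffMeasure_eq_volume,
    ← (isometry_planeMap c s hc hs).euclideanHausdorffMeasure_image]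
  apply measure_mono
  rintro _ ⟨p, ⟨hp1, hp2⟩, rfl⟩
  simp only [Set.mem_ofPred_eq] at hp1
  have hc2 : c ^ 2 = 1 / 2 := by linarith
  refine ⟨⟨⟨?_, ?_⟩, ?_⟩, ?_⟩
  · simp only [planeMap, Set.mem_ofPred_eq, Matrix.cons_val_one, Matrix.cons_val,
      Matrix.cons_val_zero]
    have : (-(s * c) * p 0) ^ 2 = p 0 ^ 2 / 2 := by
      rw [mul_pow, neg_sq, mul_pow, hs, hc2]; ring
    linarith
  · simp only [planeMap, Set.mem_ofPred_eq, Matrix.cons_val,
      Matrix.cons_val_zero]
    have : (c * p 0) ^ 2 = p 0 ^ 2 / 2 := by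
      rw [mul_pow, hc2]; ring
    linarith
  · have h0 : planeMap c s 0 = 0 := by
      ext i; fin_cases i <;> simp [planeMap]
    rw [mem_closedBall, ← h0, (isometry_planeMap c s hc hs).dist_eq]
    exact hp2
  · simp only [Set.mem_ofPred_eq, planeMap, diagDir, PiLp.inner_apply, Fin.sum_univ_three]
    simp only [Matrix.cons_val_zero, Matrix.cons_val_one, Matrix.cons_val, RCLike.inner_apply,
      conj_trivial]
    linear_combination (-(c ^ 2 * p 0)) * hs

lemma section_axis0 : sectionVol body (EuclideanSpace.single 0 1) ≤ Real.pi := by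
  have := section_le_of_subset (EuclideanSpace.single 0 1) (by simp) 1 zero_le_one (by
    rintro x ⟨⟨⟨h1, _⟩, _⟩, h2⟩
    simp only [Set.mem_ofPred_eq, EuclideanSpace.inner_single_right] at h1 h2
    have h3 : x 0 = 0 := by simpa using h2
    rw [mem_closedBall, dist_zero_right]
    have := norm_sq3 x
    rw [h3] at this
    nlinarith [norm_nonneg x])
  simpa using this

lemma section_axis1 : sectionVol body (EuclideanSpace.single 1 1) ≤ Real.pi := by
  have := section_le_of_subset (EuclideanSpace.single 1 1) (by simp) 1 zero_le_one (by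
    rintro x ⟨⟨⟨_, h1⟩, _⟩, h2⟩
    simp only [Set.mem_ofPred_eq, EuclideanSpace.inner_single_right] at h1 h2
    have h3 : x 1 = 0 := by simpa using h2
    rw [mem_closedBall, dist_zero_right]
    have := norm_sq3 x
    rw [h3] at this
    nlinarith [norm_nonneg x])
  simpa using this

lemma smul_mem_intersectionBody (u : E3) (hu : ‖u‖ = 1) (t : ℝ) (ht : 0 < t) :
    t • u ∈ intersectionBody body ↔ t ≤ sectionVol body u := by
  have hu0 : u ≠ 0 := by rintro rfl; simp at hu
  have hne : t • u ≠ 0 := smul_ne_zero ht.ne' hu0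
  have hn : ‖t • u‖ = t := by rw [norm_smul, hu, mul_one, Real.norm_of_nonneg ht.le]
  have hinv : ‖t • u‖⁻¹ • t • u = u := by rw [hn, smul_smul, inv_mul_cancel₀ ht.ne', one_smul]
  simp only [intersectionBody, Set.mem_union, Set.mem_singleton_iff, Set.mem_ofPred_eq, hne,
    false_or, ne_eq, not_false_eq_true, true_and]
  rw [hinv, hn]

lemma bmDist_body_le : bmDist body (closedBall (0 : E3) 1) ≤ 51 / 50 := by
  apply csInf_le ⟨1, fun l hl => hl.1⟩
  refine ⟨by norm_num, LinearEquiv.refl ℝ E3, ?_, ?_⟩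
  · intro x hx
    exact ⟨x, ball_subset_body hx, rfl⟩
  · rw [smul_unitClosedBall_of_nonneg (by norm_num)]
    rintro _ ⟨x, hx, rfl⟩
    exact body_subset_ball hx

lemma bm_nonempty : {l : ℝ | 1 ≤ l ∧ ∃ T : E3 ≃ₗ[ℝ] E3,
    closedBall (0 : E3) 1 ⊆ T '' intersectionBody body ∧
      T '' intersectionBody body ⊆ l • closedBall (0 : E3) 1}.Nonempty := by
  have hpi := Real.pi_gt_three
  have hpi' := Real.pi_lt_four
  refine ⟨5, by norm_num, LinearEquiv.refl ℝ E3, ?_, ?_⟩
  · intro x hx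
    rw [mem_closedBall, dist_zero_right] at hx
    refine ⟨x, ?_, rfl⟩
    by_cases h0 : x = 0
    · exact Or.inl h0
    · refine Or.inr ⟨h0, ?_⟩
      have := section_ge (‖x‖⁻¹ • x) (norm_smul_inv_norm h0)
      linarith
  · rw [smul_unitClosedBall_of_nonneg (by norm_num)]
    rintro _ ⟨x, hx, rfl⟩
    rw [mem_closedBall, dist_zero_right]
    rcases hx with hx | ⟨h0, hx⟩
    · rw [Set.mem_singleton_iff.1 hx]; simp
    · have := section_le (‖x‖⁻¹ • x) (norm_smul_inv_norm h0)
      simp only [LinearEquiv.refl_apply]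
      nlinarith

lemma lower_bound (l : ℝ) (hl : 1 ≤ l) (T : E3 ≃ₗ[ℝ] E3)
    (h1 : closedBall (0 : E3) 1 ⊆ T '' intersectionBody body)
    (h2 : T '' intersectionBody body ⊆ l • closedBall (0 : E3) 1) : 1024 / 1000 ≤ l := by
  have hpi := Real.pi_gt_three
  rw [smul_unitClosedBall_of_nonneg (by linarith)] at h2
  have hA : ∀ u : E3, ‖u‖ = 1 → sectionVol body u ≤ Real.pi → 1 ≤ Real.pi * ‖T u‖ := by
    intro u hu hs
    have hu0 : u ≠ 0 := by rintro rfl; simp at hu
    have hTu : T u ≠ 0 := by simpa using hu0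
    have hpos : 0 < ‖T u‖ := norm_pos_iff.2 hTu
    have hmem : ‖T u‖⁻¹ • T u ∈ closedBall (0 : E3) 1 := by
      rw [mem_closedBall, dist_zero_right]
      exact (norm_smul_inv_norm (𝕜 := ℝ) hTu).le
    obtain ⟨y, hy, hyT⟩ := h1 hmem
    rw [← map_smul] at hyT
    have hy' := T.injective hyT
    rw [hy', smul_mem_intersectionBody u hu _ (inv_pos.2 hpos)] at hy
    have := hy.trans hs
    rw [inv_le_iff_one_le_mul₀ hpos] at this
    exact this
  have hB : ∀ u : E3, ‖u‖ = 1 → (1024 / 1000) * Real.pi ≤ sectionVol body u →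
      (1024 / 1000) * Real.pi * ‖T u‖ ≤ l := by
    intro u hu hs
    have hpos : (0 : ℝ) < (1024 / 1000) * Real.pi := by positivity
    have hmem := (smul_mem_intersectionBody u hu _ hpos).2 hs
    have := h2 ⟨_, hmem, rfl⟩
    rw [mem_closedBall, dist_zero_right, map_smul, norm_smul, Real.norm_of_nonneg hpos.le] at this
    exact this
  set c : ℝ := Real.sqrt (1 / 2) with hcdef
  have hc : 2 * c ^ 2 = 1 := by
    rw [hcdef, Real.sq_sqrt (by norm_num)]; norm_num
  have a0 := hA _ (by simp) section_axis0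
  have a1 := hA _ (by simp) section_axis1
  have b0 := hB _ (norm_diagDir c 1 hc (by norm_num))
    (le_trans (by nlinarith) (section_diag c 1 hc (by norm_num)))
  have b1 := hB _ (norm_diagDir c (-1) hc (by norm_num))
    (le_trans (by nlinarith) (section_diag c (-1) hc (by norm_num)))
  have e0 : diagDir c 1 = c • (EuclideanSpace.single 0 1 + EuclideanSpace.single 1 1 : E3) := by
    ext i; fin_cases i <;> simp [diagDir]
  have e1 : diagDir c (-1) = c • (EuclideanSpace.single 0 1 - EuclideanSpace.single 1 1 : E3) := by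
    ext i; fin_cases i <;> simp [diagDir]
  rw [e0, map_smul, map_add, norm_smul] at b0
  rw [e1, map_smul, map_sub, norm_smul] at b1
  set p := T (EuclideanSpace.single 0 1)
  set q := T (EuclideanSpace.single 1 1)
  have hpar := parallelogram_law_with_norm ℝ p q
  have hcn : ‖c‖ ^ 2 = 1 / 2 := by rw [Real.norm_eq_abs, sq_abs]; linarith
  have s0 : ((1024 / 1000) * Real.pi * (‖c‖ * ‖p + q‖)) ^ 2 ≤ l ^ 2 :=
    pow_le_pow_left₀ (by positivity) b0 2
  have s1 : ((1024 / 1000) * Real.pi * (‖c‖ * ‖p - q‖)) ^ 2 ≤ l ^ 2 :=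
    pow_le_pow_left₀ (by positivity) b1 2
  have t0 : 1 ^ 2 ≤ (Real.pi * ‖p‖) ^ 2 := pow_le_pow_left₀ zero_le_one a0 2
  have t1 : 1 ^ 2 ≤ (Real.pi * ‖q‖) ^ 2 := pow_le_pow_left₀ zero_le_one a1 2
  rw [mul_pow, mul_pow, mul_pow, hcn] at s0 s1
  rw [mul_pow] at t0 t1
  have key : (1024 / 1000 : ℝ) ^ 2 ≤ l ^ 2 := by
    have h3 : Real.pi ^ 2 * (‖p + q‖ ^ 2 + ‖p - q‖ ^ 2) = 2 * (Real.pi ^ 2 * ‖p‖ ^ 2 +
      Real.pi ^ 2 * ‖q‖ ^ 2) := by
      have : ‖p + q‖ ^ 2 + ‖p - q‖ ^ 2 = 2 * (‖p‖ ^ 2 + ‖q‖ ^ 2) := by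
        simpa [sq] using hpar
      rw [this]; ring
    nlinarith
  exact (pow_le_pow_iff_left₀ (by norm_num) (by linarith) two_ne_zero).1 key

lemma main : bmDist body (closedBall (0 : E3) 1) <
    bmDist (intersectionBody body) (closedBall (0 : E3) 1) := by
  have h : (1024 / 1000 : ℝ) ≤ bmDist (intersectionBody body) (closedBall (0 : E3) 1) := by
    apply le_csInf bm_nonempty
    rintro l ⟨hl, T, h1, h2⟩
    exact lower_bound l hl T h1 h2
  have := bmDist_body_le
  linarith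

end Pool.Agent.MP_4e5529_gt
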